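import Pool.Agent.Helper49.BBSigma
import Pool.Agent.Helper1.KE.Defs

set_option autoImplicit false
set_option linter.style.haveILetI false

namespace Pool.Agent.Helper49.KE

open Pool.Agent.Helper16 Polynomial IntermediateField IsDedekindDomain
open Pool.Agent.Helper49.BBSigma (exists_place_irr exists_coprime_repr)

-- Module KE-1 for MP_0b9e0b_ag: functions whose divisor is vertical are invariant under
-- `y ↦ y + 1`.

section artinSchreier

/-- The minimal polynomial of a root of an Artin-Schreier polynomial is invariant under the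
translation by `1`. -/
theorem taylor_minpoly {E Ω : Type} [Field E] [Field Ω] [Algebra E Ω] (p : ℕ) [hp : Fact p.Prime]
    [CharP E p] (θ : Ω) (β : E) (h : θ ^ p - θ = algebraMap E Ω β)
    (hθ : θ ∉ (algebraMap E Ω).range) : taylor 1 (minpoly E θ) = minpoly E θ := by
  classical
  have hp1 : 1 < p := hp.out.one_lt
  set P : E[X] := X ^ p - (X + C β) with hP
  have hdegP : P.natDegree = p := by
    rw [hP, natDegree_sub_eq_left_of_natDegree_lt]
    · exact natDegree_X_pow p
    · rw [natDegree_X_add_C, natDegree_X_pow]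
      exact hp1
  have hP0 : P ≠ 0 := by
    intro h0
    rw [h0, natDegree_zero] at hdegP
    omega
  have hmonP : P.Monic := by
    apply monic_X_pow_sub
    rw [degree_X_add_C]
    exact_mod_cast hp1
  have hPθ : aeval θ P = 0 := by
    rw [hP, map_sub, map_add, map_pow, aeval_X, aeval_C, ← h]
    ring
  have hint : IsIntegral E θ := ⟨P, hmonP, hPθ⟩
  set q : E[X] := minpoly E θ with hq
  have hqirr : Irreducible q := minpoly.irreducible hint
  have hqmon : q.Monic := minpoly.monic hint
  have hqP : q ∣ P := minpoly.dvd E θ hPθ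
  have htP : ∀ n : ℕ, taylor (n : E) P = P := by
    intro n
    have h1 : (C (n : E)) ^ p = C (n : E) := by
      rw [← C_pow]
      congr 1
      exact map_natCast (frobenius E p) n
    rw [hP, map_sub, map_add, taylor_X_pow, taylor_X, taylor_C, add_pow_char, h1]
    ring
  by_contra hne
  -- translations by multiples
  have hmul : ∀ m : ℕ, taylor (m : E) q = q → ∀ n : ℕ, taylor ((n * m : ℕ) : E) q = q := by
    intro m hm n
    induction n with
    | zero => rw [zero_mul, Nat.cast_zero, taylor_zero]
    | succ n ih =>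
      rw [Nat.succ_mul, Nat.cast_add, ← taylor_taylor, hm, ih]
  have hne2 : ∀ m : ℕ, 0 < m → m < p → taylor (m : E) q ≠ q := by
    intro m hm0 hmp hm
    have hcop : Nat.Coprime m p :=
      Nat.Coprime.symm ((Nat.Prime.coprime_iff_not_dvd hp.out).2 (Nat.not_dvd_of_pos_of_lt hm0 hmp))
    obtain ⟨n, -, hn⟩ := Nat.exists_mul_mod_eq_one_of_coprime hcop hp1
    apply hne
    have h1 := hmul m hm n
    have h2 : ((n * m : ℕ) : E) = 1 := by
      have h3 : ((n * m : ℕ) : E) = ((1 : ℕ) : E) := by
        rw [CharP.cast_eq_iff_mod_eq E p, mul_comm, hn, Nat.mod_eq_of_lt hp1]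
      rw [h3, Nat.cast_one]
    rwa [h2] at h1
  have hirr : ∀ r : E, Irreducible (taylor r q) := by
    intro r
    rw [← coe_taylorEquiv]
    exact (MulEquiv.irreducible_iff (taylorEquiv r)).2 hqirr
  have hmon : ∀ r : E, (taylor r q).Monic := by
    intro r
    rw [Monic, leadingCoeff_taylor]
    exact hqmon
  have hpair : ((Finset.range p : Finset ℕ) : Set ℕ).Pairwise
      (Function.onFun IsCoprime fun n : ℕ => taylor (n : E) q) := by
    have hlt : ∀ i j : ℕ, i < j → j < p → taylor (i : E) q ≠ taylor (j : E) q := by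
      intro i j hij hj he
      have h1 : (j : E) = (i : E) + ((j - i : ℕ) : E) := by
        rw [← Nat.cast_add]
        congr 1
        omega
      rw [h1, ← taylor_taylor] at he
      exact hne2 (j - i) (by omega) (by omega) (taylor_injective _ he).symm
    intro i hi j hj hij
    have hi' : i < p := by simpa using hi
    have hj' : j < p := by simpa using hj
    refine ((hirr _).coprime_iff_not_dvd).2 fun hd => ?_
    have h2 : taylor (i : E) q = taylor (j : E) q :=
      eq_of_monic_of_associated (hmon _) (hmon _) ((hirr _).associated_of_dvd (hirr _) hd)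
    rcases lt_or_gt_of_ne hij with h3 | h3
    · exact hlt i j h3 hj' h2
    · exact hlt j i h3 hi' h2.symm
  have hprod : (∏ n ∈ Finset.range p, taylor (n : E) q) ∣ P := by
    refine Finset.prod_dvd_of_coprime hpair fun n _ => ?_
    rw [← htP n]
    obtain ⟨r, hr⟩ := hqP
    exact ⟨taylor (n : E) r, by rw [hr, taylor_mul]⟩
  have hdeg := natDegree_le_of_dvd hprod hP0
  rw [natDegree_prod_of_monic _ _ fun n _ => hmon _, hdegP] at hdeg
  simp only [natDegree_taylor, Finset.sum_const, Finset.card_range, smul_eq_mul] at hdeg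
  have h1 : q.natDegree ≤ 1 := by
    by_contra h2
    push Not at h2
    have : p * 2 ≤ p * q.natDegree := Nat.mul_le_mul_left p h2
    omega
  have h2 : q.natDegree = 1 := le_antisymm h1 (minpoly.natDegree_pos hint)
  exact hθ (minpoly.natDegree_eq_one_iff.1 h2)

/-- `γ X ^ a + X` is not of the form `h ^ p - h` in `κ(X)`. -/
theorem not_mem_aux {κ Ω : Type} [Field κ] [Field Ω] [Algebra κ Ω] (p a : ℕ) (hp : p.Prime)
    (ha : 2 ≤ a) (hpa : ¬ p ∣ a) (X : Ω) (hX : Transcendental κ X) (c : κ) (θ : Ω)
    (hθ : θ ^ p - θ = aeval X (C c * Polynomial.X ^ a + Polynomial.X : κ[X])) : θ ∉ κ⟮X⟯ := by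
  intro hmem
  obtain ⟨A, B, h⟩ := (mem_adjoin_simple_iff κ θ).1 hmem
  set H : κ[X] := C c * Polynomial.X ^ a + Polynomial.X with hH
  have hinj := transcendental_iff_injective.1 hX
  have hHdeg : ¬ p ∣ H.natDegree ∧ 0 < H.natDegree := by
    by_cases hc : c = 0
    · have : H = Polynomial.X := by rw [hH, hc, C_0, zero_mul, zero_add]
      rw [this, natDegree_X]
      exact ⟨fun hd => hp.one_lt.ne' (Nat.dvd_one.1 hd), one_pos⟩
    · have : H.natDegree = a := by
        rw [hH, natDegree_add_eq_left_of_natDegree_lt]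
        · exact natDegree_C_mul_X_pow a c hc
        · rw [natDegree_C_mul_X_pow a c hc, natDegree_X]
          omega
      rw [this]
      exact ⟨hpa, by omega⟩
  have hH0 : H ≠ 0 := by
    intro h0
    rw [h0, natDegree_zero] at hHdeg
    exact hHdeg.2.ne rfl
  have hp0 : 0 < p := hp.pos
  by_cases hB : B = 0
  · rw [hB, map_zero, div_zero] at h
    rw [h, zero_pow hp0.ne', sub_zero] at hθ
    exact hH0 (hinj (by rw [← hθ, map_zero]))
  · have hBX : aeval X B ≠ 0 := fun h0 => hB (hinj (by rw [h0, map_zero]))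
    obtain ⟨m, rfl⟩ : ∃ m, p = m + 1 := ⟨p - 1, by omega⟩
    have h1 : A ^ (m + 1) - A * B ^ m = H * B ^ (m + 1) := by
      apply hinj
      rw [map_sub, map_mul, map_mul, map_pow, map_pow, map_pow, ← hθ, h, div_pow]
      field_simp
      ring
    by_cases hA : A = 0
    · rw [hA, zero_pow hp0.ne', zero_mul, sub_zero] at h1
      exact (mul_ne_zero hH0 (pow_ne_zero _ hB)) h1.symm
    have h2 : (H * B ^ (m + 1)).natDegree = H.natDegree + (m + 1) * B.natDegree := by
      rw [natDegree_mul hH0 (pow_ne_zero _ hB), natDegree_pow]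
    have h3 : (A ^ (m + 1)).natDegree = (m + 1) * A.natDegree := natDegree_pow _ _
    have h4 : (A * B ^ m).natDegree = A.natDegree + m * B.natDegree := by
      rw [natDegree_mul hA (pow_ne_zero _ hB), natDegree_pow]
    rcases lt_or_ge B.natDegree A.natDegree with hlt | hge
    · have h5 : (A ^ (m + 1) - A * B ^ m).natDegree = (m + 1) * A.natDegree := by
        rw [natDegree_sub_eq_left_of_natDegree_lt, h3]
        rw [h3, h4]
        have hm : 0 < m := by have := hp.one_lt; omega
        have : m * B.natDegree < m * A.natDegree := Nat.mul_lt_mul_of_pos_left hlt hm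
        nlinarith
      rw [h1, h2] at h5
      apply hHdeg.1
      have h6 : (m + 1) ∣ H.natDegree + (m + 1) * B.natDegree := ⟨_, h5⟩
      exact (Nat.dvd_add_left ⟨_, rfl⟩).1 h6
    · have h5 : (A ^ (m + 1) - A * B ^ m).natDegree ≤ (m + 1) * B.natDegree := by
        refine (natDegree_sub_le _ _).trans (max_le ?_ ?_)
        · rw [h3]; exact Nat.mul_le_mul_left _ hge
        · rw [h4]; nlinarith
      rw [h1, h2] at h5
      have := hHdeg.2
      omega

end artinSchreier

section core

theorem core {k L Ω : Type} [Field k] [Field L] [Field Ω] [Algebra k L] [Algebra L Ω] [Algebra k Ω]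
    [IsScalarTower k L Ω] (p a : ℕ) [hp : Fact p.Prime] [CharP k p] (ha : 2 ≤ a) (hpa : ¬ p ∣ a)
    (γ : k) (x : L) (hx : Transcendental k x) (hL : k⟮x⟯ = ⊤)
    (α θ : Ω) (hα : IsAlgebraic k α) (hint : IsIntegral L θ)
    (hθ : θ ^ p - θ = α * algebraMap k Ω γ * algebraMap L Ω x ^ a + algebraMap L Ω x) :
    taylor 1 (minpoly L θ) = minpoly L θ := by
  -- `θ ∉ L(α)`
  have hnot : θ ∉ L⟮α⟯ := by
    intro hmem
    haveI : Algebra.IsAlgebraic k k⟮α⟯ := isAlgebraic_adjoin_simple hα.isIntegral
    have hX : Transcendental k⟮α⟯ (algebraMap L Ω x) := by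
      intro h
      have h1 : IsAlgebraic k (algebraMap L Ω x) := h.restrictScalars k
      exact hx ((isAlgebraic_algebraMap_iff (algebraMap L Ω).injective).1 h1)
    refine not_mem_aux (κ := k⟮α⟯) p a hp.out ha hpa (algebraMap L Ω x) hX
      (AdjoinSimple.gen k α * algebraMap k k⟮α⟯ γ) θ ?_ ?_
    · rw [hθ, map_add, map_mul, aeval_C, map_pow, aeval_X, map_mul, AdjoinSimple.algebraMap_gen,
        ← IsScalarTower.algebraMap_apply]
    · -- `L(α) ⊆ k(α)(x)`
      set T : IntermediateField k⟮α⟯ Ω := k⟮α⟯⟮algebraMap L Ω x⟯ with hT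
      have hk : ∀ c : k, algebraMap k Ω c ∈ T := fun c => by
        rw [IsScalarTower.algebraMap_apply k k⟮α⟯ Ω]
        exact T.algebraMap_mem _
      have hxT : algebraMap L Ω x ∈ T := mem_adjoin_simple_self _ _
      have hαT : α ∈ T := by
        have := T.algebraMap_mem (AdjoinSimple.gen k α)
        rwa [AdjoinSimple.algebraMap_gen] at this
      have hpol : ∀ q : k[X], algebraMap L Ω (aeval x q) ∈ T := by
        intro q
        rw [← aeval_algebraMap_apply]
        induction q using Polynomial.induction_on' with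
        | add p q hp hq => rw [map_add]; exact add_mem hp hq
        | monomial n a => rw [aeval_monomial]; exact mul_mem (hk a) (pow_mem hxT n)
      have hLT : ∀ l : L, algebraMap L Ω l ∈ T := by
        intro l
        have hl : l ∈ k⟮x⟯ := by rw [hL]; trivial
        obtain ⟨a, b, h⟩ := (mem_adjoin_simple_iff k l).1 hl
        rw [h, map_div₀]
        exact div_mem (hpol a) (hpol b)
      let T' : IntermediateField L Ω := T.toSubfield.toIntermediateField hLT
      have h2 : L⟮α⟯ ≤ T' := by
        rw [adjoin_simple_le_iff]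
        exact hαT
      exact h2 hmem
  set E : IntermediateField L Ω := L⟮α⟯ with hE
  haveI : CharP L p := (RingHom.charP_iff (algebraMap k L) (algebraMap k L).injective p).1 ‹_›
  haveI : CharP E p := (RingHom.charP_iff (algebraMap L E) (algebraMap L E).injective p).1 ‹_›
  haveI : CharP Ω p := (RingHom.charP_iff (algebraMap L Ω) (algebraMap L Ω).injective p).1 ‹_›
  -- `θ ^ p - θ ∈ L(α)`
  have hβ : θ ^ p - θ ∈ E := by
    rw [hθ]
    refine add_mem (mul_mem (mul_mem (mem_adjoin_simple_self _ _) ?_)
      (pow_mem (E.algebraMap_mem _) _)) (E.algebraMap_mem _)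
    rw [IsScalarTower.algebraMap_apply k L Ω]
    exact E.algebraMap_mem _
  have hintE : IsIntegral E θ := hint.tower_top
  have hmin : taylor 1 (minpoly E θ) = minpoly E θ := by
    refine taylor_minpoly p θ (⟨θ ^ p - θ, hβ⟩ : E) rfl ?_
    rintro ⟨b, hb⟩
    exact hnot (hb ▸ b.2)
  have hadd : aeval (θ + 1) (minpoly L θ) = 0 := by
    obtain ⟨q, hq⟩ := minpoly.dvd_map_of_isScalarTower L E θ
    rw [← aeval_map_algebraMap E, hq, map_mul]
    have h1 : aeval (θ + 1) (minpoly E θ) = aeval θ (taylor 1 (minpoly E θ)) := by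
      rw [taylor_apply, aeval_comp, map_add, aeval_X, aeval_C, map_one]
    rw [h1, hmin, minpoly.aeval, zero_mul]
  have hdvd : minpoly L θ ∣ taylor 1 (minpoly L θ) := by
    apply minpoly.dvd
    rw [taylor_apply, aeval_comp, map_add, aeval_X, aeval_C, map_one]
    exact hadd
  have hmon : (taylor 1 (minpoly L θ)).Monic := by
    rw [Monic, leadingCoeff_taylor]
    exact minpoly.monic hint
  exact (eq_of_monic_of_dvd_of_natDegree_le (minpoly.monic hint) hmon hdvd
    (natDegree_taylor _ _).le)

end core

section even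

variable {L M : Type} [Field L] [Field M] [Algebra L M]

/-- A polynomial all of whose monic irreducible factors are invariant is invariant. -/
theorem taylor_of_factors (a : L[X])
    (h : ∀ p : L[X], p.Monic → Irreducible p → p ∣ a → taylor 1 p = p) : taylor 1 a = a := by
  classical
  have h1 := leadingCoeff_mul_prod_normalizedFactors a
  have h2 : ∀ s : Multiset L[X], (∀ p ∈ s, taylor 1 p = p) → taylor 1 s.prod = s.prod := by
    intro s
    induction s using Multiset.induction_on with
    | empty => intro _; simp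
    | cons p s ih =>
      intro hs
      rw [Multiset.prod_cons, taylor_mul, hs p (Multiset.mem_cons_self _ _),
        ih fun q hq => hs q (Multiset.mem_cons_of_mem hq)]
  rw [← h1, taylor_mul, taylor_C, h2]
  intro p hp
  have hirr := UniqueFactorizationMonoid.irreducible_of_normalized_factor p hp
  refine h p ?_ hirr (UniqueFactorizationMonoid.dvd_of_mem_normalizedFactors hp)
  have h3 := UniqueFactorizationMonoid.normalize_normalized_factor p hp
  rw [← h3]
  exact monic_normalize hirr.ne_zero

end even

theorem sigma : Helper1.KE.SigmaStmt := by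
  intro k _ p a hp _ ha hpa γ hγ L N _ _ _ _ _ _ _ _ x y hmod σ hσ f hf h
  have hx := hmod.trx
  have hL := hmod.adjx
  have hy := hmod.tr_y
  have hM := hmod.adjy
  have ht := hmod.eq
  have hinj := transcendental_iff_injective.1 hy
  obtain ⟨A, B, hab, hfab, hb0, ha0⟩ := exists_coprime_repr y hy hM f hf
  have hx0 : x ≠ 0 := by
    rintro rfl
    exact hx isAlgebraic_zero
  have hg0 : algebraMap k L γ * x ^ a ≠ 0 :=
    mul_ne_zero (by simpa using hγ) (pow_ne_zero _ hx0)
  have key : ∀ P : L[X], P.Monic → Irreducible P → (P ∣ A ∨ P ∣ B) → taylor 1 P = P := by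
    intro P hpm hP hpab
    obtain ⟨w, hw⟩ := exists_place_irr y hy hM P hP
    have hval : ∀ q : L[X], ¬ P ∣ q → w.val (aeval y q) = 1 := fun q hq =>
      le_antisymm (hw q).1 (not_lt.1 fun hlt => hq ((hw q).2.1 hlt))
    -- the order of `f` at `w` is not zero
    have hwf : w.val f ≠ 1 := by
      rw [hfab, map_div₀]
      rcases hpab with hpa | hpb
      · have hnb : ¬ P ∣ B := fun hpb => hP.not_isUnit (hab.isUnit_of_dvd' hpa hpb)
        rw [hval B hnb, div_one]
        exact ((hw A).2.2 hpa).ne
      · have hna : ¬ P ∣ A := fun hpa => hP.not_isUnit (hab.isUnit_of_dvd' hpa hpb)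
        rw [hval A hna, one_div, ne_eq, inv_eq_one]
        exact ((hw B).2.2 hpb).ne
    -- so `w` is not trivial on `k(t)`
    obtain ⟨c, hc0, hc⟩ : ∃ c : RatFunc k, c ≠ 0 ∧ w.val (algebraMap (RatFunc k) N c) ≠ 1 := by
      by_contra hcon
      push Not at hcon
      let w' : Place (RatFunc k) N := ⟨w.val, w.surj, hcon⟩
      have h1 := h w' w.triv
      exact hwf ((w'.ord_eq_zero_iff hf).1 h1)
    -- hence there is a polynomial `q` with `q(t)` vanishing at `w`
    set T : L[X] := C (algebraMap k L γ * x ^ a)⁻¹ * (X ^ p - X - C x) with hT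
    have hTy : algebraMap (RatFunc k) N RatFunc.X = aeval y T := by
      have hg1 : algebraMap L N (algebraMap k L γ * x ^ a) ≠ 0 := by
        rw [Ne, map_eq_zero]
        exact hg0
      rw [hT, map_mul, aeval_C, map_sub, map_sub, map_pow, aeval_X, aeval_C, ht, map_inv₀,
        eq_inv_mul_iff_mul_eq₀ hg1, map_mul, map_pow, ← IsScalarTower.algebraMap_apply]
      ring
    have hpol : ∀ q : k[X], algebraMap (RatFunc k) N (algebraMap k[X] (RatFunc k) q) =
        aeval y ((q.map (algebraMap k L)).comp T) := by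
      intro q
      rw [aeval_comp, ← hTy, aeval_map_algebraMap, aeval_algebraMap_apply]
      congr 1
      rw [← RatFunc.algebraMap_X, aeval_algebraMap_apply]
      simp
    obtain ⟨q, hq0, hq⟩ : ∃ q : k[X], q ≠ 0 ∧ P ∣ (q.map (algebraMap k L)).comp T := by
      by_contra hcon
      push Not at hcon
      apply hc
      rw [← RatFunc.num_div_denom c, map_div₀, map_div₀, hpol, hpol, hval _ (hcon _ ?_),
        hval _ (hcon _ ?_), div_one]
      · exact RatFunc.denom_ne_zero c
      · simpa using hc0
    -- a root of `P`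
    let Ω := AlgebraicClosure L
    obtain ⟨θ, hθ⟩ : ∃ θ : Ω, aeval θ P = 0 := by
      apply IsAlgClosed.exists_aeval_eq_zero
      exact (degree_pos_of_irreducible hP).ne'
    have hmin : minpoly L θ = P := (minpoly.eq_of_irreducible_of_monic hP hθ hpm).symm
    have hint : IsIntegral L θ := ⟨P, hpm, hθ⟩
    have hα : IsAlgebraic k (aeval θ T) := by
      refine ⟨q, hq0, ?_⟩
      rw [← aeval_map_algebraMap L, ← aeval_comp]
      obtain ⟨r, hr⟩ := hq
      rw [hr, map_mul, hθ, zero_mul]
    have := core p a ha hpa γ x hx hL (aeval θ T) θ hα hint (by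
      have hg1 : algebraMap L Ω (algebraMap k L γ * x ^ a) ≠ 0 := by
        rw [Ne, map_eq_zero]
        exact hg0
      rw [mul_assoc, IsScalarTower.algebraMap_apply k L Ω, ← map_pow, ← map_mul, hT, map_mul,
        aeval_C, map_sub, map_sub, map_pow, aeval_X, aeval_C, map_inv₀, mul_right_comm,
        inv_mul_cancel₀ hg1, one_mul]
      ring)
    rwa [hmin] at this
  have hev : ∀ q : L[X], q ≠ 0 → (∀ P : L[X], P.Monic → Irreducible P → P ∣ q →
      taylor 1 P = P) → σ (aeval y q) = aeval y q := by
    intro q hq hq2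
    have h1 : σ (aeval y q) = aeval (y + 1) q := by
      rw [← hσ]
      exact (aeval_algHom_apply (σ : N →ₐ[L] N) y q).symm
    rw [h1]
    conv_rhs => rw [← taylor_of_factors q hq2, taylor_apply, aeval_comp]
    rw [map_add, aeval_X, aeval_C, map_one]
  rw [hfab, map_div₀, hev A ha0 fun P h1 h2 h3 => key P h1 h2 (Or.inl h3),
    hev B hb0 fun P h1 h2 h3 => key P h1 h2 (Or.inr h3)]

end Pool.Agent.Helper49.KE
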